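import Pool.Agent.W323.SC.Stm

set_option autoImplicit false
open Finset
open scoped Classical

namespace Pool.Agent.W35.SC

open Pool.Agent.W323.SC

theorem sum_card_one {α : Type} [Fintype α] (y : α → ℝ) :
    ∑ S ∈ (univ : Finset (Finset α)).filter (fun S => S.card = 1), w y S = ∑ p, y p := by
  have h1 : (univ : Finset (Finset α)).filter (fun S => S.card = 1) =
      univ.image (fun p : α => ({p} : Finset α)) := by
    ext S
    simp only [mem_filter, mem_univ, true_and, mem_image, card_eq_one]
    constructor
    · rintro ⟨p, hp⟩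
      exact ⟨p, hp.symm⟩
    · rintro ⟨p, hp⟩
      exact ⟨p, hp.symm⟩
  rw [h1, sum_image (fun p _ q _ h => singleton_injective h)]
  simp [w]

theorem sum_all {α : Type} (y : α → ℝ) (s : Finset α) :
    (∏ p ∈ s, (1 + y p)) - 1 = ∑ S ∈ s.powerset.filter (fun S => 1 ≤ S.card), w y S := by
  rw [prod_one_add, ← sum_filter_add_sum_filter_not s.powerset (fun S => 1 ≤ S.card)]
  have h1 : s.powerset.filter (fun S => ¬ 1 ≤ S.card) = {∅} := by
    ext S
    rw [mem_filter, mem_powerset, mem_singleton, not_le, Nat.lt_one_iff, card_eq_zero]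
    constructor
    · exact fun h => h.2
    · intro h
      subst h
      exact ⟨empty_subset _, rfl⟩
  rw [h1, sum_singleton, prod_empty]
  unfold w
  ring

theorem sum_lab {α ι : Type} [Fintype α] [Fintype ι] (a : α → ι) (y : α → ℝ) :
    ∑ i, ((∏ p ∈ univ.filter (fun p => a p = i), (1 + y p)) - 1) =
      (∑ p, y p) +
        ∑ S ∈ (univ : Finset (Finset α)).filter (fun S => 2 ≤ S.card ∧ cst a S), w y S := by
  simp only [sum_all]
  rw [← sum_biUnion]
  · have h : (univ : Finset ι).biUnion (fun i => (univ.filter (fun p => a p = i)).powerset.filter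
        (fun S => 1 ≤ S.card)) = (univ : Finset (Finset α)).filter (fun S => S.card = 1) ∪
        (univ : Finset (Finset α)).filter (fun S => 2 ≤ S.card ∧ cst a S) := by
      ext S
      simp only [mem_biUnion, mem_filter, mem_powerset, mem_univ, true_and, mem_union]
      constructor
      · rintro ⟨i, hS, hc⟩
        by_cases h1 : S.card = 1
        · left
          exact h1
        · right
          refine ⟨by omega, fun p hp q hq => ?_⟩
          have h2 := hS hp
          have h3 := hS hq
          rw [mem_filter] at h2 h3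
          rw [h2.2, h3.2]
      · rintro (h1 | ⟨h1, h2⟩)
        · obtain ⟨p, rfl⟩ := card_eq_one.1 h1
          refine ⟨a p, ?_, by omega⟩
          intro q hq
          rw [mem_singleton] at hq
          rw [mem_filter, hq]
          exact ⟨mem_univ _, rfl⟩
        · have h3 : S.Nonempty := card_pos.1 (by omega)
          obtain ⟨p, hp⟩ := h3
          refine ⟨a p, ?_, by omega⟩
          intro q hq
          rw [mem_filter]
          exact ⟨mem_univ _, h2 q hq p hp⟩
    rw [h, sum_union, sum_card_one]
    rw [disjoint_left]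
    intro S h1 h2
    rw [mem_filter] at h1 h2
    omega
  · intro i _ j _ hij
    rw [Function.onFun, disjoint_left]
    intro S h1 h2
    rw [mem_filter, mem_powerset] at h1 h2
    obtain ⟨p, hp⟩ := card_pos.1 h1.2
    have h3 := h1.1 hp
    have h4 := h2.1 hp
    rw [mem_filter] at h3 h4
    exact hij (h3.2.symm.trans h4.2)

theorem tri {α ι κ : Type} (a : α → ι) (b : α → κ) (hI : Inj a b) (S : Finset α) (v : ℝ) :
    (if 1 ≤ S.card then v else 0) = (if S.card = 1 then v else 0) +
      (if 2 ≤ S.card ∧ cst a S then v else 0) + (if 2 ≤ S.card ∧ cst b S then v else 0) +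
      (if nst a b S then v else 0) := by
  have hn2 : nst a b S → 2 ≤ S.card := by
    rintro ⟨p, hp, q, hq, hd⟩
    have hpq : p ≠ q := fun h => hd.1 (by rw [h])
    exact one_lt_card.2 ⟨p, hp, q, hq, hpq⟩
  by_cases h1 : S.card = 0
  · rw [if_neg (by omega), if_neg (by omega), if_neg (by omega), if_neg (by omega),
      if_neg (fun h => by have := hn2 h; omega)]
    ring
  by_cases h2 : S.card = 1
  · rw [if_pos (by omega), if_pos h2, if_neg (by omega), if_neg (by omega),
      if_neg (fun h => by have := hn2 h; omega)]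
    ring
  have h3 : 2 ≤ S.card := by omega
  rw [if_pos (by omega), if_neg h2]
  by_cases ha : cst a S
  · have hb : ¬ cst b S := by
      intro hb
      obtain ⟨p, hp, q, hq, hpq⟩ := one_lt_card.1 h3
      exact hpq (hI p q (ha p hp q hq) (hb p hp q hq))
    have hn : ¬ nst a b S := by
      rintro ⟨p, hp, q, hq, hd⟩
      exact hd.1 (ha p hp q hq)
    rw [if_pos ⟨h3, ha⟩, if_neg (fun h => hb h.2), if_neg hn]
    ring
  · by_cases hb : cst b S
    · have hn : ¬ nst a b S := by
        rintro ⟨p, hp, q, hq, hd⟩
        exact hd.2 (hb p hp q hq)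
      rw [if_neg (fun h => ha h.2), if_pos ⟨h3, hb⟩, if_neg hn]
      ring
    · have hn : nst a b S := by
        by_contra hn
        unfold cst at ha hb
        push Not at ha hb
        obtain ⟨p, hp, q, hq, hpq⟩ := ha
        obtain ⟨r, hr, s, hs, hrs⟩ := hb
        have key : ∀ u ∈ S, ∀ v ∈ S, a u = a v ∨ b u = b v := by
          intro u hu v hv
          by_contra hc
          rw [not_or] at hc
          exact hn ⟨u, hu, v, hv, hc⟩
        have hb1 : b p = b q := (key p hp q hq).resolve_left hpq
        have hx : ∀ u ∈ S, b u = b p := by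
          intro u hu
          by_contra hc
          have h4 : a u = a p := (key u hu p hp).resolve_right hc
          have h5 : a u = a q := (key u hu q hq).resolve_right (by rw [← hb1]; exact hc)
          exact hpq (h4.symm.trans h5)
        exact hrs ((hx r hr).trans (hx s hs).symm)
      rw [if_neg (fun h => ha h.2), if_neg (fun h => hb h.2), if_pos hn]
      ring

theorem pairs {α ι κ : Type} [Fintype α] (a : α → ι) (b : α → κ) (y : α → ℝ) :
    ∑ p, ∑ q, (if dj a b p q then y p * y q else 0) =
      2 * ∑ S ∈ prs a b univ, w y S := by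
  rw [← Fintype.sum_prod_type' (fun p q => if dj a b p q then y p * y q else 0), ← sum_filter,
    ← sum_fiberwise_of_maps_to (s := univ.filter (fun x : α × α => dj a b x.1 x.2))
      (t := prs a b univ) (g := fun x => ({x.1, x.2} : Finset α)), mul_sum]
  · apply sum_congr rfl
    intro S hS
    unfold prs at hS
    rw [mem_filter, mem_powersetCard] at hS
    obtain ⟨⟨_, hc⟩, p, hp, q, hq, hd⟩ := hS
    have hpq : p ≠ q := fun h => hd.1 (by rw [h])
    have hS' : S = {p, q} := by
      symm
      apply eq_of_subset_of_card_le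
      · intro u hu
        rw [mem_insert, mem_singleton] at hu
        rcases hu with rfl | rfl
        · exact hp
        · exact hq
      · rw [hc, card_pair hpq]
    have hf : ((univ.filter (fun x : α × α => dj a b x.1 x.2)).filter
        (fun x => ({x.1, x.2} : Finset α) = S)) = {(p, q), (q, p)} := by
      ext x
      rw [mem_filter, mem_filter, mem_insert, mem_singleton]
      constructor
      · rintro ⟨⟨_, hx⟩, hxS⟩
        have hx12 : x.1 ≠ x.2 := fun h => hx.1 (by rw [h])
        have h1 : x.1 ∈ S := by rw [← hxS]; exact mem_insert_self _ _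
        have h2 : x.2 ∈ S := by rw [← hxS]; exact mem_insert_of_mem (mem_singleton_self _)
        rw [hS', mem_insert, mem_singleton] at h1 h2
        rcases h1 with h1 | h1 <;> rcases h2 with h2 | h2
        · exact absurd (h1.trans h2.symm) hx12
        · left
          exact Prod.ext h1 h2
        · right
          exact Prod.ext h1 h2
        · exact absurd (h1.trans h2.symm) hx12
      · rintro (rfl | rfl)
        · exact ⟨⟨mem_univ _, hd⟩, hS'.symm⟩
        · refine ⟨⟨mem_univ _, fun h => hd.1 h.symm, fun h => hd.2 h.symm⟩, ?_⟩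
          rw [hS']
          exact pair_comm _ _
    rw [hf, sum_pair (fun h => hpq (congrArg Prod.fst h))]
    unfold w
    rw [hS', prod_pair hpq]
    ring
  · intro x hx
    rw [mem_filter] at hx
    unfold prs
    rw [mem_filter, mem_powersetCard]
    have hx12 : x.1 ≠ x.2 := fun h => hx.2.1 (by rw [h])
    exact ⟨⟨subset_univ _, card_pair hx12⟩, x.1, mem_insert_self _ _, x.2,
      mem_insert_of_mem (mem_singleton_self _), hx.2⟩

theorem mat : S_Sub → S_Mat := by
  intro hSub ι κ _ _ y hy
  let Y : ι × κ → ℝ := fun p => y p.1 p.2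
  have hI : Inj (Prod.fst : ι × κ → ι) (Prod.snd : ι × κ → κ) := fun p q h1 h2 => Prod.ext h1 h2
  have h0 := hSub (ι × κ) ι κ Prod.fst Prod.snd hI Y (fun p => hy p.1 p.2)
  have hs : (∑ i, ∑ j, y i j) = ∑ p, Y p := (Fintype.sum_prod_type' y).symm
  have hE : (∏ i, ∏ j, (1 + y i j)) - 1 =
      ∑ S ∈ (univ : Finset (Finset (ι × κ))).filter (fun S => 1 ≤ S.card), w Y S := by
    rw [← Fintype.prod_prod_type' (fun i j => 1 + y i j)]
    have := sum_all Y univ
    rw [powerset_univ] at this
    exact this
  have hX : ∑ i, ((∏ j, (1 + y i j)) - 1) = (∑ p, Y p) +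
      ∑ S ∈ (univ : Finset (Finset (ι × κ))).filter (fun S => 2 ≤ S.card ∧ cst Prod.fst S),
        w Y S := by
    rw [← sum_lab (Prod.fst : ι × κ → ι) Y]
    apply sum_congr rfl
    intro i _
    congr 1
    rw [prod_filter, Fintype.prod_prod_type, prod_eq_single i]
    · apply prod_congr rfl
      intro j _
      rw [if_pos rfl]
    · intro i' _ hi'
      apply prod_eq_one
      intro j _
      rw [if_neg hi']
    · intro h
      exact absurd (mem_univ _) h
  have hY : ∑ j, ((∏ i, (1 + y i j)) - 1) = (∑ p, Y p) +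
      ∑ S ∈ (univ : Finset (Finset (ι × κ))).filter (fun S => 2 ≤ S.card ∧ cst Prod.snd S),
        w Y S := by
    rw [← sum_lab (Prod.snd : ι × κ → κ) Y]
    apply sum_congr rfl
    intro j _
    congr 1
    rw [prod_filter, Fintype.prod_prod_type_right, prod_eq_single j]
    · apply prod_congr rfl
      intro i _
      rw [if_pos rfl]
    · intro j' _ hj'
      apply prod_eq_one
      intro i _
      rw [if_neg hj']
    · intro h
      exact absurd (mem_univ _) h
  have hF : ∑ S ∈ (univ : Finset (Finset (ι × κ))).filter (fun S => 1 ≤ S.card), w Y S =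
      (∑ p, Y p) +
      (∑ S ∈ (univ : Finset (Finset (ι × κ))).filter (fun S => 2 ≤ S.card ∧ cst Prod.fst S),
        w Y S) +
      (∑ S ∈ (univ : Finset (Finset (ι × κ))).filter (fun S => 2 ≤ S.card ∧ cst Prod.snd S),
        w Y S) +
      ∑ S ∈ (univ : Finset (Finset (ι × κ))).filter (fun S => nst Prod.fst Prod.snd S), w Y S := by
    rw [← sum_card_one Y]
    simp only [sum_filter]
    rw [← sum_add_distrib, ← sum_add_distrib, ← sum_add_distrib]
    apply sum_congr rfl
    intro S _
    exact tri _ _ hI S _
  have hQ : (∑ i, ∑ j, ∑ i', ∑ j', if i ≠ i' ∧ j ≠ j' then y i j * y i' j' else 0) =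
      2 * ∑ S ∈ prs (Prod.fst : ι × κ → ι) (Prod.snd : ι × κ → κ) univ, w Y S := by
    rw [← pairs, Fintype.sum_prod_type]
    apply sum_congr rfl
    intro i _
    apply sum_congr rfl
    intro j _
    rw [Fintype.sum_prod_type]
    apply sum_congr rfl
    intro i' _
    apply sum_congr rfl
    intro j' _
    by_cases h : i ≠ i' ∧ j ≠ j'
    · have h' : dj (Prod.fst : ι × κ → ι) (Prod.snd : ι × κ → κ) (i, j) (i', j') := h
      rw [if_pos h, if_pos h']
    · have h' : ¬ dj (Prod.fst : ι × κ → ι) (Prod.snd : ι × κ → κ) (i, j) (i', j') := h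
      rw [if_neg h, if_neg h']
  rw [hs, hE, hX, hY, hQ]
  have h1 : (2 * ∑ S ∈ prs (Prod.fst : ι × κ → ι) (Prod.snd : ι × κ → κ) univ, w Y S) / 2 =
    ∑ S ∈ prs (Prod.fst : ι × κ → ι) (Prod.snd : ι × κ → κ) univ, w Y S := by ring
  rw [h1]
  generalize (∑ S ∈ prs (Prod.fst : ι × κ → ι) (Prod.snd : ι × κ → κ) univ, w Y S) = Q at *
  generalize (∑ S ∈ (univ : Finset (Finset (ι × κ))).filter (fun S => 1 ≤ S.card), w Y S) = E at *
  generalize (∑ S ∈ (univ : Finset (Finset (ι × κ))).filter
    (fun S => 2 ≤ S.card ∧ cst Prod.fst S), w Y S) = X' at *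
  generalize (∑ S ∈ (univ : Finset (Finset (ι × κ))).filter
    (fun S => 2 ≤ S.card ∧ cst Prod.snd S), w Y S) = Y' at *
  generalize (∑ S ∈ (univ : Finset (Finset (ι × κ))).filter
    (fun S => nst Prod.fst Prod.snd S), w Y S) = Z' at *
  generalize (∑ p, Y p) = s at *
  have h2 : (s + X') * (s + Y') - (s - Q) * E = X' * Y' + Q * E - s * Z' := by
    rw [hF]
    ring
  linarith

end Pool.Agent.W35.SC
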